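import Pool.Agent.R884.CG.Thresh

set_option autoImplicit false

/-!
# Corner-free sets in `(F_2^n)^2` with large additive energy

A corner-free set `A ⊆ (F_2^n)^2` whose additive energy is at least `|A|^3 / K` has at most
`C_K * 8 ^ (n / 2)` elements, and the power saving bound for all corner-free sets is equivalent to
an exponential decay of the energy (or to an exponential growth of the sumset) of the corner-free
sets with more than `8 ^ (n / 2) * 2 ^ (ε n)` elements.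
-/

namespace Pool.Agent.Results.MP_db4732_co.EnergyAndSumset

open Finset
open scoped Pointwise

/-- `F_2^n` -/
abbrev V (n : ℕ) := Fin n → ZMod 2

/-- `A ⊆ (F_2^n)^2` contains no nontrivial corner `(x, y), (x, y + z), (x + z, y)`, `z ≠ 0`. -/
def CornerFree {n : ℕ} (A : Finset (V n × V n)) : Prop :=
  ∀ x y z : V n, (x, y) ∈ A → (x, y + z) ∈ A → (x + z, y) ∈ A → z = 0

/-- the additive energy: the number of `(a, b, c, d) ∈ A^4` with `a + c = b + d` -/
def energy {n : ℕ} (A : Finset (V n × V n)) : ℕ :=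
  #{x ∈ (A ×ˢ A) ×ˢ A ×ˢ A | x.1.1 + x.2.1 = x.1.2 + x.2.2}

/-- The statement asked for in Q1. -/
def PowerSaving : Prop := ∃ C c : ℝ, 0 < C ∧ 0 < c ∧ ∀ n : ℕ, 1 ≤ n →
  ∀ A : Finset (V n × V n), CornerFree A → (#A : ℝ) ≤ C * 4 ^ ((1 - c) * (n : ℝ))

/-- The corner-free sets with at least `2 ^ ((3/2 + ε) n)` elements have energy at most
`C * 2 ^ (- c n) * |A|^3`. -/
def EnergyDecay (ε : ℝ) : Prop := ∃ C c : ℝ, 0 < C ∧ 0 < c ∧ ∀ n : ℕ,
  ∀ A : Finset (V n × V n), CornerFree A → (2 : ℝ) ^ ((3 / 2 + ε) * (n : ℝ)) ≤ #A →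
    (2 : ℝ) ^ (c * (n : ℝ)) * energy A ≤ C * (#A : ℝ) ^ 3

/-- The corner-free sets with at least `2 ^ ((3/2 + ε) n)` elements have
`|A + A| ≥ C⁻¹ * 2 ^ (c n) * |A|`. -/
def SumsetGrowth (ε : ℝ) : Prop := ∃ C c : ℝ, 0 < C ∧ 0 < c ∧ ∀ n : ℕ,
  ∀ A : Finset (V n × V n), CornerFree A → (2 : ℝ) ^ ((3 / 2 + ε) * (n : ℝ)) ≤ #A →
    (2 : ℝ) ^ (c * (n : ℝ)) * #A ≤ C * #(A + A)

/-- **Theorem.**
(1) Corner-free sets with energy at least `|A|^3 / K` have at most `C_K * 8 ^ (n / 2)` elements.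
(2) The same for corner-free sets with `|A + A| ≤ K |A|`.
(3) Quantitatively, for variable `K ≥ 1`: if `A` is corner-free, has energy at least `|A|^3 / K` and
`|A|² ≥ 2 ^ 974 * K ^ 442 * 8 ^ n * 2 ^ m`, then some corner-free set in `(F_2^m)^2` has density
at least `2 ^ (-968) * K ^ (-440)`.
(4) For every `ε` between `0` and `1/2` the power saving bound for all corner-free sets is
equivalent to the exponential decay of the energy, and to the exponential growth of the sumset, of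
the corner-free sets with at least `2 ^ ((3/2 + ε) n)` elements.
(5) The exponents `3/2` are optimal: for `ε ≤ 0` neither the energy decays nor does the sumset
grow. -/
theorem result :
    (∀ K : ℝ, 1 ≤ K → ∃ C : ℝ, ∀ (n : ℕ) (A : Finset (V n × V n)), CornerFree A →
      (#A : ℝ) ^ 3 ≤ K * energy A → (#A : ℝ) ^ 2 ≤ C * 8 ^ n) ∧
    (∀ K : ℝ, 1 ≤ K → ∃ C : ℝ, ∀ (n : ℕ) (A : Finset (V n × V n)), CornerFree A →
      (#(A + A) : ℝ) ≤ K * #A → (#A : ℝ) ^ 2 ≤ C * 8 ^ n) ∧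
    (∀ (n m : ℕ) (K : ℝ) (A : Finset (V n × V n)), 1 ≤ K → CornerFree A →
      (#A : ℝ) ^ 3 ≤ K * energy A → 2 ^ 974 * K ^ 442 * (8 ^ n * 2 ^ m) ≤ (#A : ℝ) ^ 2 →
      ∃ B : Finset (V m × V m), CornerFree B ∧ (4 : ℝ) ^ m ≤ 2 ^ 968 * K ^ 440 * #B) ∧
    (∀ ε : ℝ, 0 < ε → ε < 1 / 2 →
      (PowerSaving ↔ EnergyDecay ε) ∧ (PowerSaving ↔ SumsetGrowth ε)) ∧
    (∀ ε : ℝ, ε ≤ 0 → ¬ EnergyDecay ε ∧ ¬ SumsetGrowth ε) := by
  have hb := Pool.Agent.R884.CG.bounded
  refine ⟨hb, ?_, ?_, ?_, ?_⟩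
  · intro K hK
    obtain ⟨C, hC⟩ := hb K hK
    refine ⟨max C 0, fun n A hA h => ?_⟩
    rcases A.eq_empty_or_nonempty with h0 | hne
    · rw [h0, Finset.card_empty, Nat.cast_zero, zero_pow two_ne_zero]
      positivity
    · have hA0 : (0 : ℝ) < #A := by exact_mod_cast hne.card_pos
      have h2 : (#A : ℝ) ^ 2 * #A ^ 2 ≤ #(A + A) * (Finset.addEnergy A A : ℕ) := by
        exact_mod_cast Finset.le_card_add_mul_addEnergy A A
      have h3 : (#A : ℝ) ^ 3 ≤ K * (Finset.addEnergy A A : ℕ) := by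
        have h4 : (#A : ℝ) * (#A : ℝ) ^ 3 ≤ #A * (K * (Finset.addEnergy A A : ℕ)) := by
          calc (#A : ℝ) * (#A : ℝ) ^ 3 = (#A : ℝ) ^ 2 * (#A : ℝ) ^ 2 := by ring
            _ ≤ (#(A + A) : ℝ) * (Finset.addEnergy A A : ℕ) := h2
            _ ≤ (K * (#A : ℝ)) * (Finset.addEnergy A A : ℕ) :=
              mul_le_mul_of_nonneg_right h (Nat.cast_nonneg _)
            _ = _ := by ring
        exact le_of_mul_le_mul_left h4 hA0
      exact (hC n A hA h3).trans
        (mul_le_mul_of_nonneg_right (le_max_left _ _) (by positivity))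
  · intro n m K A hK hA hE h
    have hne : A.Nonempty := by
      rw [Finset.nonempty_iff_ne_empty]
      rintro rfl
      rw [Finset.card_empty, Nat.cast_zero, zero_pow two_ne_zero] at h
      have : (0 : ℝ) < 2 ^ 974 * K ^ 442 * (8 ^ n * 2 ^ m) := by
        have : 0 < K := by linarith
        positivity
      exact absurd h (not_le.2 this)
    obtain ⟨B, hB, hBr⟩ := Pool.Agent.R884.CG.exists_r m
    refine ⟨B, hB, ?_⟩
    have h1 := Pool.Agent.R884.CG.quant (m := m) hA hne hK hE (by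
      refine le_trans (le_of_eq ?_) h
      have e8 : (8 : ℝ) ^ n = 2 ^ (3 * n) := by rw [pow_mul]; norm_num
      rw [e8, pow_add, pow_add]
      ring)
    rw [hBr]
    exact h1
  · intro ε h0 h1
    exact ⟨⟨fun h => Pool.Agent.R884.CG.decay_of_saving h h0, fun h =>
        Pool.Agent.R884.CG.saving_of_growth h1 (Pool.Agent.R884.CG.growth_of_decay h)⟩,
      ⟨fun h => Pool.Agent.R884.CG.growth_of_decay (Pool.Agent.R884.CG.decay_of_saving h h0),
        fun h => Pool.Agent.R884.CG.saving_of_growth h1 h⟩⟩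
  · exact fun ε h => ⟨Pool.Agent.R884.CG.not_decay h, Pool.Agent.R884.CG.not_growth h⟩

end Pool.Agent.Results.MP_db4732_co.EnergyAndSumset
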