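import Mathlib
import Pool.Agent.R288.PC.Flats

/-!
# Corner-free sets in `(F_2^n)^2` whose points have low-degree certificates inside their lines

A point `a` of a corner-free set `A` has a certificate of degree `D` if one of the three lines
through `a` (its row, its column, its diagonal) has a polynomial `h` of degree at most `D`, over some
field, with `h(a) ≠ 0` and with `h = 0` at all points of the line outside `A`. The polynomial may
depend on the point `a`, so that there is no bound on the number of polynomials needed for one line.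

For each of the three directions there are at most `2^n ∑_{i ≤ D} C(n, i)` points with a certificate
of degree `D`: let `S` be the set of the `x` such that `(x, y)` has the certificate `h_x` in its row.
For `x, x'` in `S`, `x ≠ x'`, the point `(x, y + x + x')` is not in `A`, hence the functions
`x' ↦ h_x (y + x + x')` are diagonal on `S`, and they have degree at most `D`.
-/

set_option autoImplicit false

namespace Pool.Agent.Results.MP_db4732_co.PolynomialCertificates

open Finset Module

/-- `F_2^n` -/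
abbrev V (n : ℕ) := Fin n → ZMod 2

/-- `A` contains no nontrivial corner `(x, y), (x, y + z), (x + z, y)`. -/
def CornerFree {n : ℕ} (A : Finset (V n × V n)) : Prop :=
  ∀ x y z : V n, (x, y) ∈ A → (x, y + z) ∈ A → (x + z, y) ∈ A → z = 0

/-- the monomial `∏_{i ∈ I} y_i`, as a function on `F_2^n = {0,1}^n` with values in `K` -/
def monomial (K : Type) [Field K] {n : ℕ} (I : Finset (Fin n)) : V n → K :=
  fun y => if ∀ i ∈ I, y i = 1 then 1 else 0

/-- the functions `{0,1}^n → K` which are polynomials of degree at most `D` over `K` -/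
def polys (K : Type) [Field K] (n D : ℕ) : Submodule K (V n → K) :=
  Submodule.span K {f | ∃ I : Finset (Fin n), I.card ≤ D ∧ f = monomial K I}

/-- the directions of the three families of lines -/
inductive Direction : Type
  | row : Direction
  | column : Direction
  | diagonal : Direction

/-- the rows `{y : (s, y) ∈ A}`, the columns `{x : (x, s) ∈ A}` and the diagonals
`{y : (s + y, y) ∈ A}` of `A` -/
def line {n : ℕ} (A : Finset (V n × V n)) : Direction → V n → Set (V n)
  | .row, s => {y | (s, y) ∈ A}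
  | .column, s => {x | (x, s) ∈ A}
  | .diagonal, s => {y | (s + y, y) ∈ A}

/-- the line of the given direction through the point `a` has the number `number k a` -/
def number {n : ℕ} : Direction → V n × V n → V n
  | .row, a => a.1
  | .column, a => a.2
  | .diagonal, a => a.1 + a.2

/-- the point `a` on its line of the given direction -/
def place {n : ℕ} : Direction → V n × V n → V n
  | .row, a => a.2
  | .column, a => a.1
  | .diagonal, a => a.2

/-- The point `y` of `L` has a certificate of degree at most `D`: a polynomial of degree at most `D`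
which is nonzero at `y` and vanishes outside `L`. -/
def Certified (K : Type) [Field K] {n : ℕ} (D : ℕ) (L : Set (V n)) (y : V n) : Prop :=
  ∃ h ∈ polys K n D, h y ≠ 0 ∧ ∀ y', h y' ≠ 0 → y' ∈ L

/-- `y` lies on a flat `y + W` of dimension at least `d` which is contained in `L`. -/
def OnFlat {n : ℕ} (d : ℕ) (L : Set (V n)) (y : V n) : Prop :=
  ∃ W : Submodule (ZMod 2) (V n), d ≤ finrank (ZMod 2) W ∧ ∀ w ∈ W, y + w ∈ L

/-- `F` is a coset of a subspace. -/
def IsFlat {n : ℕ} (F : Set (V n)) : Prop :=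
  ∃ (p : V n) (W : Submodule (ZMod 2) (V n)), F = {y | p + y ∈ W}

/-- `L` is a union of at most `T` flats of arbitrary dimensions. -/
def UnionOfFlats {n : ℕ} (T : ℕ) (L : Set (V n)) : Prop :=
  ∃ F : Finset (Set (V n)), F.card ≤ T ∧ (∀ B ∈ F, IsFlat B) ∧ L = ⋃ B ∈ F, B

open Pool.Agent.R288.PC in
lemma bound {K : Type} [Field K] {n D : ℕ} {A : Finset (V n × V n)}
    (hA : Pool.Agent.Results.MP_db4732_co.PolynomialCertificates.CornerFree A) (k : Direction)
    (S : Finset (V n × V n))
    (hS : ∀ a ∈ S, a ∈ A ∧ Certified K D (line A k (number k a)) (place k a)) :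
    S.card ≤ 2 ^ n * ∑ i ∈ range (D + 1), n.choose i := by
  cases k with
  | row => exact rows (K := K) D A hA S hS
  | column => exact cols (K := K) D A hA S hS
  | diagonal => exact diags (K := K) D A hA S hS

lemma on_flat {n : ℕ} (d : ℕ) (L : Set (V n)) (y : V n) (h : OnFlat d L y) :
    Certified (ZMod 2) (n - d) L y :=
  Pool.Agent.R288.PC.flat_cert d L y h

lemma three {n : ℕ} {A : Finset (V n × V n)} (P : Direction → V n × V n → Prop)
    (hP : ∀ a ∈ A, ∃ k, P k a) (M : ℕ)
    (h : ∀ k (S : Finset (V n × V n)), (∀ a ∈ S, a ∈ A ∧ P k a) → S.card ≤ M) :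
    A.card ≤ 3 * M := by
  classical
  have h1 : A ⊆ (A.filter (P .row) ∪ A.filter (P .column)) ∪ A.filter (P .diagonal) := by
    intro a ha
    obtain ⟨k, hk⟩ := hP a ha
    rw [mem_union, mem_union, mem_filter, mem_filter, mem_filter]
    cases k with
    | row => exact Or.inl (Or.inl ⟨ha, hk⟩)
    | column => exact Or.inl (Or.inr ⟨ha, hk⟩)
    | diagonal => exact Or.inr ⟨ha, hk⟩
  have h2 : ∀ k, (A.filter (P k)).card ≤ M := fun k => h k _ (fun a ha => mem_filter.1 ha)
  have h3 := card_le_card h1
  have h4 := card_union_le (A.filter (P .row) ∪ A.filter (P .column)) (A.filter (P .diagonal))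
  have h5 := card_union_le (A.filter (P .row)) (A.filter (P .column))
  have h6 := h2 .row
  have h7 := h2 .column
  have h8 := h2 .diagonal
  omega

lemma place_inj {n : ℕ} (k : Direction) (a b : V n × V n) (h1 : number k a = number k b)
    (h2 : place k a = place k b) : a = b := by
  cases k with
  | row => exact Prod.ext h1 h2
  | column => exact Prod.ext h2 h1
  | diagonal =>
    have h3 : a.2 = b.2 := h2
    have h4 : a.1 + a.2 = b.1 + b.2 := h1
    rw [h3] at h4
    exact Prod.ext (add_right_cancel h4) h3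

lemma place_mem {n : ℕ} {A : Finset (V n × V n)} (k : Direction) (a : V n × V n) (h : a ∈ A) :
    place k a ∈ line A k (number k a) := by
  cases k with
  | row => exact h
  | column => exact h
  | diagonal =>
    change (a.1 + a.2 + a.2, a.2) ∈ A
    rw [add_assoc, Pool.Agent.R288.PC.neg_self, add_zero]
    exact h

lemma card_flat {n : ℕ} (p : V n) (W : Submodule (ZMod 2) (V n)) (S : Finset (V n))
    (hS : ∀ y, y ∈ S ↔ p + y ∈ W) : S.card = 2 ^ finrank (ZMod 2) W := by
  classical
  have h1 : S.card = Nat.card W := by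
    rw [← Nat.card_eq_finsetCard]
    refine Nat.card_congr ⟨fun y => ⟨p + y.1, (hS y.1).1 y.2⟩,
      fun w => ⟨p + w.1, (hS _).2 (by
        rw [← add_assoc, Pool.Agent.R288.PC.neg_self, zero_add]; exact w.2)⟩,
      fun y => Subtype.ext (by
        change p + (p + y.1) = y.1
        rw [← add_assoc, Pool.Agent.R288.PC.neg_self, zero_add]),
      fun w => Subtype.ext (by
        change p + (p + w.1) = w.1
        rw [← add_assoc, Pool.Agent.R288.PC.neg_self, zero_add])⟩
  rw [h1, Module.natCard_eq_pow_finrank (K := ZMod 2)]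
  simp

lemma small_flats {n : ℕ} (T d : ℕ) (L : Set (V n)) (hL : UnionOfFlats T L) (S : Finset (V n))
    (hS : ∀ y ∈ S, y ∈ L ∧ ¬ OnFlat d L y) : S.card ≤ T * 2 ^ d := by
  classical
  obtain ⟨F, hT, hF, rfl⟩ := hL
  let G : Set (V n) → Finset (V n) := fun B => univ.filter (fun y => y ∈ B)
  have h1 : S ⊆ (F.filter (fun B => (G B).card ≤ 2 ^ d)).biUnion G := by
    intro y hy
    obtain ⟨h1, h2⟩ := hS y hy
    rw [Set.mem_iUnion₂] at h1
    obtain ⟨B, hB, hyB⟩ := h1
    rw [mem_biUnion]
    refine ⟨B, mem_filter.2 ⟨hB, ?_⟩, mem_filter.2 ⟨mem_univ _, hyB⟩⟩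
    by_contra hc
    push Not at hc
    apply h2
    obtain ⟨p, W, rfl⟩ := hF B hB
    have hy2 : p + y ∈ W := hyB
    refine ⟨W, ?_, ?_⟩
    · rw [card_flat p W _ (fun y => by rw [mem_filter]; exact ⟨fun h => h.2,
        fun h => ⟨mem_univ _, h⟩⟩)] at hc
      exact ((Nat.pow_lt_pow_iff_right (by norm_num)).1 hc).le
    · intro w hw
      rw [Set.mem_iUnion₂]
      refine ⟨_, hB, ?_⟩
      change p + (y + w) ∈ W
      rw [← add_assoc]
      exact W.add_mem hy2 hw
  refine (card_le_card h1).trans ?_
  refine (card_biUnion_le_card_mul _ _ (2 ^ d) ?_).trans ?_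
  · intro B hB
    exact (mem_filter.1 hB).2
  · exact Nat.mul_le_mul_right _ ((card_filter_le _ _).trans hT)

/-- Let `A ⊆ (F_2^n)^2` be corner-free.
(1) For every field `K` and every direction, at most `2^n ∑_{i ≤ D} C(n, i)` points of `A` have a
certificate of degree at most `D` over `K` in their line of this direction.
(2) If every point of `A` has a certificate of degree at most `(1/2 - δ) n` in its row, its column or
its diagonal, then `|A| ≤ 3 * 4^n * exp(-2 δ^2 n)`.
(3) If every point of `A` lies on a flat of dimension at least `(1/2 + δ) n` which is contained in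
its row, its column or its diagonal of `A`, then `|A| ≤ 3 * 4^n * exp(-2 δ^2 n)`.
(4) If all rows, or all columns, or all diagonals of `A` are unions of at most `2^(n/5)` flats of
arbitrary dimensions, then `|A| ≤ 3 * 4^n / 2^(n/20)`. -/
theorem result {n : ℕ} (A : Finset (V n × V n)) (hA : CornerFree A) :
    (∀ (K : Type) [Field K] (D : ℕ) (k : Direction) (S : Finset (V n × V n)),
      (∀ a ∈ S, a ∈ A ∧ Certified K D (line A k (number k a)) (place k a)) →
        S.card ≤ 2 ^ n * ∑ i ∈ range (D + 1), n.choose i) ∧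
    (∀ (K : Type) [Field K] (D : ℕ) (δ : ℝ), 0 ≤ δ → (D : ℝ) ≤ (1 / 2 - δ) * n →
      (∀ a ∈ A, ∃ k, Certified K D (line A k (number k a)) (place k a)) →
        (A.card : ℝ) ≤ 3 * 4 ^ n * Real.exp (-(2 * δ ^ 2 * n))) ∧
    (∀ (d : ℕ) (δ : ℝ), 0 ≤ δ → (1 / 2 + δ) * n ≤ (d : ℝ) →
      (∀ a ∈ A, ∃ k, OnFlat d (line A k (number k a)) (place k a)) →
        (A.card : ℝ) ≤ 3 * 4 ^ n * Real.exp (-(2 * δ ^ 2 * n))) ∧
    (∀ (T : ℕ), (T : ℝ) ≤ 2 ^ ((n : ℝ) / 5) → (∃ k, ∀ s, UnionOfFlats T (line A k s)) →
        (A.card : ℝ) ≤ 3 * 4 ^ n * 2 ^ (-(n : ℝ) / 20)) := by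
  classical
  have main : ∀ (K : Type) [Field K] (D : ℕ) (δ : ℝ), 0 ≤ δ → (D : ℝ) ≤ (1 / 2 - δ) * n →
      (∀ a ∈ A, ∃ k, Certified K D (line A k (number k a)) (place k a)) →
        (A.card : ℝ) ≤ 3 * 4 ^ n * Real.exp (-(2 * δ ^ 2 * n)) := by
    intro K _ D δ hδ hD h
    have h1 := three (A := A) (fun k a => Certified K D (line A k (number k a)) (place k a)) h
      (2 ^ n * ∑ i ∈ range (D + 1), n.choose i) (fun k S hS => bound hA k S hS)
    have h2 := Pool.Agent.R288.PC.tail n D δ hδ hD
    have h3 : (A.card : ℝ) ≤ 3 * (2 ^ n * (Pool.Agent.R288.PC.vol n D : ℝ)) := by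
      unfold Pool.Agent.R288.PC.vol
      exact_mod_cast h1
    have h4 : (4 : ℝ) ^ n = 2 ^ n * 2 ^ n := by
      rw [← mul_pow]; norm_num
    calc (A.card : ℝ) ≤ 3 * (2 ^ n * (Pool.Agent.R288.PC.vol n D : ℝ)) := h3
      _ ≤ 3 * (2 ^ n * (2 ^ n * Real.exp (-(2 * δ ^ 2 * n)))) := by gcongr
      _ = _ := by rw [h4]; ring
  refine ⟨fun K _ D k S hS => bound hA k S hS, main, ?_, ?_⟩
  · intro d δ hδ hd h
    rcases le_or_gt d n with h1 | h1
    · refine main (ZMod 2) (n - d) δ hδ ?_ (fun a ha => ?_)
      · rw [Nat.cast_sub h1]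
        linarith
      · obtain ⟨k, hk⟩ := h a ha
        exact ⟨k, on_flat d _ _ hk⟩
    · have h2 : A = ∅ := by
        rw [eq_empty_iff_forall_notMem]
        intro a ha
        obtain ⟨k, W, h3, _⟩ := h a ha
        have h4 := Submodule.finrank_le W
        rw [Module.finrank_fin_fun] at h4
        omega
      rw [h2, card_empty, Nat.cast_zero]
      positivity
  · intro T hT ⟨k, hk⟩
    set d : ℕ := ⌈(3 / 4 : ℝ) * n⌉₊ with hd
    have hd1 : (3 / 4 : ℝ) * n ≤ d := Nat.le_ceil _
    have hd2 : (d : ℝ) ≤ 3 / 4 * n + 1 := (Nat.ceil_lt_add_one (by positivity)).le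
    have hdn : d ≤ n := by
      rw [hd, Nat.ceil_le]
      have : (0 : ℝ) ≤ n := Nat.cast_nonneg n
      linarith
    have h1 := bound (K := ZMod 2) (D := n - d) hA k
      (A.filter (fun a => OnFlat d (line A k (number k a)) (place k a)))
      (fun a ha => ⟨(mem_filter.1 ha).1, on_flat d _ _ (mem_filter.1 ha).2⟩)
    have h2 : (A.filter (fun a => ¬ OnFlat d (line A k (number k a)) (place k a))).card ≤
        2 ^ n * (T * 2 ^ d) := by
      rw [card_eq_sum_card_fiberwise (f := number k) (t := univ) (fun _ _ => mem_univ _)]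
      refine (sum_le_sum (g := fun _ => T * 2 ^ d) (fun s _ => ?_)).trans ?_
      · rw [← card_image_of_injOn (f := place k)]
        · refine small_flats T d (line A k s) (hk s) _ (fun y hy => ?_)
          obtain ⟨a, ha, rfl⟩ := mem_image.1 hy
          rw [mem_filter, mem_filter] at ha
          obtain ⟨⟨h3, h4⟩, rfl⟩ := ha
          exact ⟨place_mem k a h3, h4⟩
        · intro a ha b hb hab
          rw [mem_coe, mem_filter] at ha hb
          exact place_inj k a b (ha.2.trans hb.2.symm) hab
      · rw [sum_const, card_univ, Fintype.card_fun, ZMod.card, Fintype.card_fin, smul_eq_mul]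
    have h3 : A.card ≤ 2 ^ n * Pool.Agent.R288.PC.vol n (n - d) + 2 ^ n * (T * 2 ^ d) := by
      rw [← card_filter_add_card_filter_not (s := A)
        (fun a => OnFlat d (line A k (number k a)) (place k a))]
      exact add_le_add h1 h2
    have h4 : (A.card : ℝ) ≤ 2 ^ n * (Pool.Agent.R288.PC.vol n (n - d) : ℝ) +
        2 ^ n * (T * 2 ^ d) := by exact_mod_cast h3
    have h5 := Pool.Agent.R288.PC.tail n (n - d) (1 / 4) (by norm_num) (by
      rw [Nat.cast_sub hdn]; linarith)
    have e4 : (4 : ℝ) ^ n = 2 ^ n * 2 ^ n := by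
      rw [← mul_pow]; norm_num
    have hn0 : (0 : ℝ) ≤ n := Nat.cast_nonneg n
    have h6 : Real.exp (-(2 * (1 / 4 : ℝ) ^ 2 * n)) ≤ 2 ^ (-(n : ℝ) / 20) := by
      rw [Real.rpow_def_of_pos (by norm_num)]
      refine Real.exp_le_exp.2 ?_
      have := Real.log_two_lt_d9
      nlinarith
    have h7 : (T : ℝ) * 2 ^ d ≤ 2 * (2 ^ n * 2 ^ (-(n : ℝ) / 20)) := by
      have h8 : (2 : ℝ) ^ d ≤ 2 ^ (3 / 4 * (n : ℝ) + 1) := by
        rw [← Real.rpow_natCast]
        exact Real.rpow_le_rpow_of_exponent_le (by norm_num) hd2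
      calc (T : ℝ) * 2 ^ d ≤ 2 ^ ((n : ℝ) / 5) * 2 ^ (3 / 4 * (n : ℝ) + 1) := by gcongr
        _ = 2 * (2 ^ n * 2 ^ (-(n : ℝ) / 20)) := by
          rw [← Real.rpow_natCast 2 n, ← Real.rpow_add (by norm_num),
            ← Real.rpow_add (by norm_num)]
          have : (2 : ℝ) * 2 ^ ((n : ℝ) + -(n : ℝ) / 20) =
              2 ^ ((1 : ℝ) + ((n : ℝ) + -(n : ℝ) / 20)) := by
            rw [Real.rpow_add (by norm_num) 1, Real.rpow_one]
          rw [this]
          congr 1
          ring
    calc (A.card : ℝ) ≤ 2 ^ n * (Pool.Agent.R288.PC.vol n (n - d) : ℝ) +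
        2 ^ n * (T * 2 ^ d) := h4
      _ ≤ 2 ^ n * (2 ^ n * 2 ^ (-(n : ℝ) / 20)) + 2 ^ n * (2 * (2 ^ n * 2 ^ (-(n : ℝ) / 20))) := by
          have h9 := h5.trans (mul_le_mul_of_nonneg_left h6 (by positivity))
          gcongr
      _ = _ := by rw [e4]; ring

end Pool.Agent.Results.MP_db4732_co.PolynomialCertificates
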