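import Pool.Agent.R756.CT.Tree
import Pool.Agent.R756.TN.Ex

/-!
# Corner-free sets computed by tree tensor networks

We show a power-saving bound `|A| ≤ C (|G| ^ (2 n)) ^ (1 - c)` for the corner-free subsets of
`(G ^ n) ^ 2` (`G` a nontrivial finite abelian group, e.g. `F_2`) which are supports of functions
computed by read-once tree tensor networks of bounded bond dimension over arbitrary fields. The tree
and the assignment of the `2 n` coordinates `x_1, ..., x_n, y_1, ..., y_n` to its leaves are
arbitrary, the coordinates `x_i` and `y_i` may be far from each other in the tree, and there may be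
cancellations in the field. This contains the sets decided by nondeterministic machines with a bounded
number of states which read the coordinates once in any order, and the supports of tensors of bounded
rank.

Proof. Cut the tree into `O (n / m)` clusters of at most `2 m` leaves. If many pairs `x_i, y_i` are in
different clusters, there is a partition of the clusters into two classes which separates many of
them. The rank of the flattening of the function with respect to this partition is `w ^ O (n / m)`,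
and we show that corner-free supports which have small rank with respect to a partition separating
many pairs are small. If few pairs are separated, then there are many clusters which contain many
pairs and have few neighbours, hence bounded flattening rank. By the density Hales-Jewett theorem the
section of the set over each assignment of the other coordinates has small density, and the nonempty
sections are covered by boundedly many words of the cluster; so each of these clusters gives a factor
`1 / 2`.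
-/

set_option autoImplicit false

namespace Pool.Agent.Results.MP_db4732_co.TreeTensorNetworks

open Finset
open Pool.Agent.R756.TN Pool.Agent.R756.CT

variable {G : Type} [AddCommGroup G] {n : ℕ}

/-- `A ⊆ (G ^ n) ^ 2` contains no nontrivial corner `(x, y), (x, y + z), (x + z, y)`, `z ≠ 0`. -/
def CornerFree (A : Finset ((Fin n → G) × (Fin n → G))) : Prop :=
  ∀ x y z : Fin n → G, (x, y) ∈ A → (x, y + z) ∈ A → (x + z, y) ∈ A → z = 0

/-- `A` is the support `{(x, y) | φ (D.eval (x, y)) ≠ 0}` of a function computed by a tree tensor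
network `D` over a field `K`, with messages in `K ^ W`, bond dimension `card W ≤ w`, which reads each
of the `2 n` coordinates `x_i = Sum.inl i`, `y_i = Sum.inr i` exactly once. -/
def Computed (w : ℕ) (A : Finset ((Fin n → G) × (Fin n → G))) : Prop :=
  ∃ (K : Type) (_ : Field K) (W : Type) (_ : Fintype W) (D : Net K (Fin n ⊕ Fin n) G W)
    (φ : (W → K) →ₗ[K] K), Fintype.card W ≤ w ∧ D.ReadOnce ∧ D.vars = univ ∧
    ∀ x y, (x, y) ∈ A ↔ φ (D.eval (Sum.elim x y)) ≠ 0

/-- `A` is decided by the nondeterministic machine with state set `Q`, initial states `start`,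
accepting states `acc` and (time-dependent) transitions `step`, which reads the `2 n` coordinates once,
in the order `order 0, order 1, …`. -/
def DecidedBy {Q : Type} (start acc : Q → Prop) (step : ℕ → Q → G → Q → Prop)
    (order : Fin (2 * n) ≃ Fin n ⊕ Fin n) (A : Finset ((Fin n → G) × (Fin n → G))) : Prop :=
  ∀ x y, (x, y) ∈ A ↔ ∃ r : ℕ → Q, start (r 0) ∧ acc (r (2 * n)) ∧
    ∀ t : Fin (2 * n), step t (r t) (Sum.elim x y (order t)) (r (t + 1))

lemma elim_eta (c : Fin n ⊕ Fin n → G) :
    Sum.elim (fun i => c (Sum.inl i)) (fun i => c (Sum.inr i)) = c := by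
  funext s
  rcases s with i | i <;> rfl

lemma cf_of {A : Finset ((Fin n → G) × (Fin n → G))} (hA : CornerFree A) {K : Type} [Field K]
    {f : (Fin n ⊕ Fin n → G) → K} (hf : ∀ x y, (x, y) ∈ A ↔ f (Sum.elim x y) ≠ 0) :
    CF {c | f c ≠ 0} := by
  intro c z hz h1 h2 h3
  apply hz
  refine hA (fun i => c (Sum.inl i)) (fun i => c (Sum.inr i)) z ?_ ?_ ?_
  · rw [hf, elim_eta]
    exact h1
  · rw [hf]
    exact h2
  · rw [hf]
    exact h3

open Classical in
lemma card_of [Fintype G] {A : Finset ((Fin n → G) × (Fin n → G))} {K : Type} [Field K]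
    {f : (Fin n ⊕ Fin n → G) → K} (hf : ∀ x y, (x, y) ∈ A ↔ f (Sum.elim x y) ≠ 0) :
    A.card = (univ.filter fun c => f c ≠ 0).card := by
  refine card_bij' (fun p _ => Sum.elim p.1 p.2)
    (fun c _ => (fun i => c (Sum.inl i), fun i => c (Sum.inr i))) ?_ ?_ ?_ ?_
  · intro p hp
    rw [mem_filter]
    exact ⟨mem_univ _, (hf p.1 p.2).1 hp⟩
  · intro c hc
    rw [hf, elim_eta]
    exact (mem_filter.1 hc).2
  · intro p _
    rfl
  · intro c _
    exact elim_eta c

lemma computed_mono {w w' : ℕ} (h : w ≤ w') {A : Finset ((Fin n → G) × (Fin n → G))}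
    (hA : Computed w A) : Computed w' A := by
  obtain ⟨K, i1, W, i2, D, φ, h1, h2⟩ := hA
  exact ⟨K, i1, W, i2, D, φ, h1.trans h, h2⟩

/-- Supports of tensors of rank at most `card W`. -/
lemma computed_rank {K W : Type} [Field K] [Fintype W] (hn : 0 < n)
    (g : W → Fin n ⊕ Fin n → G → K) (A : Finset ((Fin n → G) × (Fin n → G)))
    (hA : ∀ x y, (x, y) ∈ A ↔ ∑ w, ∏ s, g w s (Sum.elim x y s) ≠ 0) :
    Computed (Fintype.card W) A := by
  have : Nonempty (Fin n ⊕ Fin n) := ⟨Sum.inl ⟨0, hn⟩⟩
  obtain ⟨D, h1, h2, h3⟩ := exists_net_rank (K := K) (ι := Fin n ⊕ Fin n) (α := G) g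
  refine ⟨K, inferInstance, W, inferInstance, D, sumOn K univ, le_rfl, h1, h2, fun x y => ?_⟩
  rw [hA, sumOn_apply]
  simp only [h3]

/-- Sets decided by nondeterministic machines. -/
lemma computed_machine {Q : Type} [Fintype Q] (hn : 0 < n) (start acc : Q → Prop)
    (step : ℕ → Q → G → Q → Prop) (order : Fin (2 * n) ≃ Fin n ⊕ Fin n)
    (A : Finset ((Fin n → G) × (Fin n → G))) (hA : DecidedBy start acc step order A) :
    Computed (Fintype.card Q ^ 2) A := by
  classical
  obtain ⟨t, ht⟩ : ∃ t, 2 * n = t + 1 := ⟨2 * n - 1, by omega⟩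
  let σ : ℕ → Fin n ⊕ Fin n := fun s => if h : s < 2 * n then order ⟨s, h⟩ else
    order ⟨0, by omega⟩
  have hσ : ∀ (s : ℕ) (h : s < 2 * n), σ s = order ⟨s, h⟩ := by
    intro s h
    simp only [σ, dif_pos h]
  have hinj : Set.InjOn σ (Set.Iic t) := by
    intro a ha b hb hab
    simp only [Set.mem_Iic] at ha hb
    rw [hσ a (by omega), hσ b (by omega)] at hab
    have := order.injective hab
    simpa using this
  have hev := fun (x : Fin n ⊕ Fin n → G) => mnet_eval step σ x t
  refine ⟨ℚ, inferInstance, Q × Q, inferInstance, mnet step σ t,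
    sumOn ℚ (univ.filter fun k => start k.1 ∧ acc k.2), ?_, mnet_readOnce step σ t hinj, ?_, ?_⟩
  · rw [Fintype.card_prod, pow_two]
  · rw [mnet_vars]
    ext i
    simp only [mem_image, mem_range, mem_univ, iff_true]
    refine ⟨order.symm i, by have := (order.symm i).2; omega, ?_⟩
    rw [hσ _ (order.symm i).2]
    simp
  · intro x y
    rw [hA, sumOn_apply, Ne, sum_eq_zero_iff_of_nonneg fun k _ => (hev (Sum.elim x y) k.1 k.2).1]
    push Not
    constructor
    · rintro ⟨r, h1, h2, h3⟩
      refine ⟨(r 0, r (t + 1)), by simp [h1, ← ht, h2], ?_⟩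
      refine (hev _ _ _).2.2 ⟨r, rfl, rfl, fun s hs => ?_⟩
      rw [hσ s (by omega)]
      exact h3 ⟨s, by omega⟩
    · rintro ⟨⟨q, q'⟩, hk, hne⟩
      simp only [mem_filter, mem_univ, true_and] at hk
      obtain ⟨r, rfl, rfl, h3⟩ := (hev _ q q').2.1 hne
      refine ⟨r, hk.1, by rw [ht]; exact hk.2, fun s => ?_⟩
      have := h3 s (by have := s.2; omega)
      rw [hσ s s.2] at this
      exact this

lemma main_bound (G : Type) [AddCommGroup G] [Fintype G] [Nontrivial G] (w : ℕ) :
    ∃ ρ : ℝ, 0 < ρ ∧ ρ < 1 ∧ ∀ (n : ℕ) (A : Finset ((Fin n → G) × (Fin n → G))),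
      CornerFree A → Computed w A → (#A : ℝ) ≤ (ρ * (Fintype.card G : ℝ) ^ 2) ^ n := by
  classical
  obtain ⟨M, hM, h⟩ := tree_count G (max w 1) (le_max_right _ _)
  set q : ℝ := (Fintype.card G : ℝ) with hq
  have hq2 : (2 : ℝ) ≤ q := by rw [hq]; exact_mod_cast (Fintype.one_lt_card : 1 < Fintype.card G)
  set θ : ℝ := 1 - 1 / q ^ (4 * M) with hθ
  have hqm : (2 : ℝ) ≤ q ^ (4 * M) := by
    calc (2 : ℝ) ≤ q ^ 1 := by rw [pow_one]; exact hq2
      _ ≤ q ^ (4 * M) := pow_le_pow_right₀ (by linarith) (by omega)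
  have hθ0 : 0 < θ := by
    rw [hθ, sub_pos, div_lt_one (by positivity)]
    linarith
  have hθ1 : θ < 1 := by
    rw [hθ]
    have : 0 < 1 / q ^ (4 * M) := by positivity
    linarith
  have hMR : (0 : ℝ) < M := by exact_mod_cast hM
  set ρ1 : ℝ := (1 / 2 : ℝ) ^ (1 / (2 * M) : ℝ) with hρ1
  set ρ2 : ℝ := θ ^ (1 / (2 * M) : ℝ) with hρ2
  have h10 : 0 < ρ1 := Real.rpow_pos_of_pos (by norm_num) _
  have h11 : ρ1 < 1 := Real.rpow_lt_one (by norm_num) (by norm_num) (by positivity)
  have h20 : 0 < ρ2 := Real.rpow_pos_of_pos hθ0 _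
  have h21 : ρ2 < 1 := Real.rpow_lt_one hθ0.le hθ1 (by positivity)
  refine ⟨max ρ1 ρ2, lt_max_of_lt_left h10, max_lt h11 h21, ?_⟩
  intro n A hA hc
  obtain ⟨K, i1, W, i2, D, φ, hW, hD, hvars, hx⟩ := hc
  have hcf : CF {c | φ (D.eval c) ≠ 0} := cf_of (f := fun c => φ (D.eval c)) hA hx
  have hcard := card_of (f := fun c => φ (D.eval c)) hx
  have hpos : (0 : ℝ) < (q ^ 2) ^ n := by positivity
  rw [mul_pow]
  rcases le_or_gt (2 * M) n with hn | hn
  · obtain ⟨s, hs1, hs2⟩ := h K W (hW.trans (le_max_left _ _)) (Fin n) D hD hvars φ hcf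
    rw [Fintype.card_fin] at hs1 hs2
    rw [← hcard] at hs2
    have hs3 : (2 : ℝ) ^ s * #A ≤ (q ^ 2) ^ n := by
      rw [← pow_mul, hq]
      exact_mod_cast hs2
    have hs4 : (#A : ℝ) ≤ (1 / 2) ^ s * (q ^ 2) ^ n := by
      calc (#A : ℝ) = (1 / 2) ^ s * (2 ^ s * #A) := by
            rw [← mul_assoc, ← mul_pow]
            norm_num
        _ ≤ (1 / 2) ^ s * (q ^ 2) ^ n := by gcongr
    refine hs4.trans (mul_le_mul_of_nonneg_right ?_ hpos.le)
    refine le_trans ?_ (pow_le_pow_left₀ h10.le (le_max_left ρ1 ρ2) _)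
    rw [hρ1, ← Real.rpow_natCast, ← Real.rpow_natCast, ← Real.rpow_mul (by norm_num)]
    apply Real.rpow_le_rpow_of_exponent_ge (by norm_num) (by norm_num)
    have h3 : n ≤ 2 * M * s := by
      have e : M * (s + 1) = M * s + M := by ring
      have e' : 2 * M * s = 2 * (M * s) := by ring
      omega
    have h4 : (n : ℝ) ≤ 2 * M * s := by exact_mod_cast h3
    rw [div_mul_eq_mul_div, one_mul, div_le_iff₀ (by positivity)]
    linarith
  · rcases Nat.eq_zero_or_pos n with h0 | hn1
    · subst h0
      have : (#A : ℝ) ≤ 1 := by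
        have h1 := card_le_univ A
        have h2 : Fintype.card ((Fin 0 → G) × (Fin 0 → G)) = 1 := by simp
        rw [h2] at h1
        exact_mod_cast h1
      simpa using this
    -- `A` is not everything
    have hne : #A < Fintype.card ((Fin n → G) × (Fin n → G)) := by
      by_contra hcon
      have h1 : A = univ := by
        rw [← card_eq_iff_eq_univ]
        exact le_antisymm (card_le_univ A) (not_lt.1 hcon)
      obtain ⟨g, hg⟩ := exists_ne (0 : G)
      have h2 := hA 0 0 (fun _ => g) (by simp [h1]) (by simp [h1]) (by simp [h1])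
      exact hg (congrFun h2 ⟨0, hn1⟩)
    have e1 : (Fintype.card ((Fin n → G) × (Fin n → G)) : ℝ) = (q ^ 2) ^ n := by
      rw [Fintype.card_prod, Fintype.card_fun, Fintype.card_fin]
      push_cast
      rw [← hq, ← pow_mul, ← pow_add, two_mul]
    have e2 : (#A : ℝ) ≤ (q ^ 2) ^ n - 1 := by
      rw [← e1]
      have : #A + 1 ≤ Fintype.card ((Fin n → G) × (Fin n → G)) := hne
      have : ((#A + 1 : ℕ) : ℝ) ≤ (Fintype.card ((Fin n → G) × (Fin n → G)) : ℝ) := by
        exact_mod_cast this
      push_cast at this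
      linarith
    have e3 : (#A : ℝ) ≤ θ * (q ^ 2) ^ n := by
      refine e2.trans ?_
      have h1 : (q ^ 2) ^ n ≤ q ^ (4 * M) := by
        rw [← pow_mul]
        exact pow_le_pow_right₀ (by linarith) (by omega)
      have h2 : 1 / q ^ (4 * M) * (q ^ 2) ^ n ≤ 1 := by
        rw [div_mul_eq_mul_div, one_mul, div_le_one (by positivity)]
        exact h1
      rw [hθ, sub_mul, one_mul]
      linarith
    refine e3.trans (mul_le_mul_of_nonneg_right ?_ hpos.le)
    refine le_trans ?_ (pow_le_pow_left₀ h20.le (le_max_right ρ1 ρ2) _)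
    rw [hρ2, ← Real.rpow_natCast, ← Real.rpow_mul hθ0.le]
    calc θ = θ ^ (1 : ℝ) := (Real.rpow_one θ).symm
      _ ≤ θ ^ (1 / (2 * M) * (n : ℝ)) := by
        apply Real.rpow_le_rpow_of_exponent_ge hθ0 hθ1.le
        rw [div_mul_eq_mul_div, one_mul, div_le_one (by positivity)]
        exact_mod_cast hn.le

/-- Let `G` be a nontrivial finite abelian group, e.g. `F_2`.
(1) For every `w` there is `c > 0` such that every corner-free `A ⊆ (G^n)^2` (any `n`) that is a union
of `T` sets computed with bond dimension at most `w` satisfies `|A| ≤ T (|G|^(2n))^(1-c)`.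
(2) Cuts. Let the support `A` of a function `f` on `(G^n)^2` with values in a field be corner-free, let
`P` be a set of coordinates such that the flattening of `f` (coordinates in `P` against the other ones)
has rank at most `R`, and let `T` be a set of indices `i` with `x_i` in `P` and `y_i` not in `P` for
all `i` in `T`, or `x_i` not in `P` and `y_i` in `P` for all `i` in `T`. Then
`|A| |G|^|T| ≤ R |G|^(2n)`.
(3) Blocks. For every `d` there is `m` such that: let the support `A` of a function `f` on `(G^n)^2`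
with values in a field be corner-free, and let there be `s` disjoint sets of coordinates, each of which
contains both `x_i` and `y_i` for at least `m` indices `i`, such that the flattening of `f` at each of
them has rank at most `d`. Then `2^s |A| ≤ |G|^(2n)`.
(4) The support of a sum of `w` products of functions of one coordinate each (over any field) is
computed with bond dimension `w`.
(5) A set decided by a nondeterministic machine with `w` states that reads the `2n` coordinates once,
in any order, is computed with bond dimension `w^2`. -/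
theorem result (G : Type) [AddCommGroup G] [Fintype G] [Nontrivial G] :
    (∀ w : ℕ, ∃ c : ℝ, 0 < c ∧ ∀ (n T : ℕ) (A : Finset ((Fin n → G) × (Fin n → G)))
      (B : Fin T → Finset ((Fin n → G) × (Fin n → G))), CornerFree A →
      (∀ p, p ∈ A ↔ ∃ t, p ∈ B t) → (∀ t, Computed w (B t)) →
      (#A : ℝ) ≤ T * ((Fintype.card G : ℝ) ^ (2 * n)) ^ (1 - c)) ∧
    (∀ (K : Type) [Field K] (n R : ℕ) (f : (Fin n ⊕ Fin n → G) → K)
      (A : Finset ((Fin n → G) × (Fin n → G))) (P : Finset (Fin n ⊕ Fin n)) (T : Finset (Fin n)),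
      CornerFree A → (∀ x y, (x, y) ∈ A ↔ f (Sum.elim x y) ≠ 0) → Rk R P f →
      ((∀ i ∈ T, Sum.inl i ∈ P ∧ Sum.inr i ∉ P) ∨ (∀ i ∈ T, Sum.inl i ∉ P ∧ Sum.inr i ∈ P)) →
      #A * Fintype.card G ^ #T ≤ R * Fintype.card G ^ (2 * n)) ∧
    (∀ d : ℕ, ∃ m : ℕ, ∀ (K : Type) [Field K] (n s : ℕ) (f : (Fin n ⊕ Fin n → G) → K)
      (A : Finset ((Fin n → G) × (Fin n → G))) (B : Fin s → Finset (Fin n ⊕ Fin n)),
      CornerFree A → (∀ x y, (x, y) ∈ A ↔ f (Sum.elim x y) ≠ 0) →
      (∀ j, m ≤ #{i : Fin n | Sum.inl i ∈ B j ∧ Sum.inr i ∈ B j}) →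
      (∀ i j, i ≠ j → Disjoint (B i) (B j)) → (∀ j, Rk d (B j) f) →
      2 ^ s * #A ≤ Fintype.card G ^ (2 * n)) ∧
    (∀ (K W : Type) [Field K] [Fintype W] (n : ℕ), 0 < n → ∀ (g : W → Fin n ⊕ Fin n → G → K)
      (A : Finset ((Fin n → G) × (Fin n → G))),
      (∀ x y, (x, y) ∈ A ↔ ∑ w, ∏ s, g w s (Sum.elim x y s) ≠ 0) →
      Computed (Fintype.card W) A) ∧
    (∀ (Q : Type) [Fintype Q] (n : ℕ), 0 < n → ∀ (start acc : Q → Prop)
      (step : ℕ → Q → G → Q → Prop) (order : Fin (2 * n) ≃ Fin n ⊕ Fin n)
      (A : Finset ((Fin n → G) × (Fin n → G))), DecidedBy start acc step order A →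
      Computed (Fintype.card Q ^ 2) A) := by
  classical
  refine ⟨?_, ?_, ?_, ?_, ?_⟩
  · intro w
    obtain ⟨ρ, h0, h1, h⟩ := main_bound G w
    set q : ℝ := (Fintype.card G : ℝ) with hq
    have hq2 : (2 : ℝ) ≤ q := by rw [hq]; exact_mod_cast (Fintype.one_lt_card : 1 < Fintype.card G)
    have hlq : 0 < Real.log (q ^ 2) := Real.log_pos (by nlinarith)
    have hlρ : Real.log ρ < 0 := Real.log_neg h0 h1
    refine ⟨-Real.log ρ / Real.log (q ^ 2), div_pos (by linarith) hlq, ?_⟩
    intro n T A B hA hB hC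
    have e : (q ^ (2 * n)) ^ (1 - -Real.log ρ / Real.log (q ^ 2)) = (ρ * q ^ 2) ^ n := by
      have hqp : (0 : ℝ) < q ^ 2 := by positivity
      rw [pow_mul, ← Real.rpow_natCast (q ^ 2) n, ← Real.rpow_mul hqp.le, mul_comm (n : ℝ),
        Real.rpow_mul hqp.le, Real.rpow_natCast]
      congr 1
      rw [show (1 : ℝ) - -Real.log ρ / Real.log (q ^ 2) =
        (Real.log ρ + Real.log (q ^ 2)) / Real.log (q ^ 2) by field_simp; ring,
        Real.rpow_def_of_pos hqp, mul_div_cancel₀ _ hlq.ne', Real.exp_add, Real.exp_log h0,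
        Real.exp_log hqp]
    rw [e]
    have h2 : A ⊆ univ.biUnion B := by
      intro x hx
      obtain ⟨t, ht⟩ := (hB x).1 hx
      exact mem_biUnion.2 ⟨t, mem_univ _, ht⟩
    calc (#A : ℝ) ≤ ((∑ t, #(B t) : ℕ) : ℝ) := by
          exact_mod_cast (card_le_card h2).trans card_biUnion_le
      _ = ∑ t, (#(B t) : ℝ) := by push_cast; rfl
      _ ≤ ∑ _t : Fin T, (ρ * q ^ 2) ^ n := by
          refine sum_le_sum fun t _ => h n (B t) ?_ (hC t)
          intro x y z g1 g2 g3
          exact hA x y z ((hB _).2 ⟨t, g1⟩) ((hB _).2 ⟨t, g2⟩) ((hB _).2 ⟨t, g3⟩)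
      _ = T * (ρ * q ^ 2) ^ n := by simp
  · intro K _ n R f A P T hA hf hP hT
    have h1 := cut_bound f (cf_of hA hf) P hP T hT
    rw [Fintype.card_fin] at h1
    rw [card_of hf]
    convert h1
  · intro d
    obtain ⟨m, hm⟩ := block_bound G d
    refine ⟨m, ?_⟩
    intro K _ n s f A B hA hf hB hdis hrk
    have h1 := hm K (Fin n) f (List.ofFn B) (by
      intro C hC
      obtain ⟨j, rfl⟩ := (List.mem_ofFn' _ _).1 hC
      exact hB j) (by
      rw [List.pairwise_ofFn]
      intro i j hij
      exact hdis i j hij.ne) (by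
      intro C hC
      obtain ⟨j, rfl⟩ := (List.mem_ofFn' _ _).1 hC
      exact hrk j) (cf_of hA hf)
    rw [List.length_ofFn, Fintype.card_fin] at h1
    rw [card_of hf]
    convert h1
  · intro K W _ _ n hn g A hA
    exact computed_rank hn g A hA
  · intro Q _ n hn start acc step order A hA
    exact computed_machine hn start acc step order A hA

end Pool.Agent.Results.MP_db4732_co.TreeTensorNetworks
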