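import Pool.Agent.H96.CornerStar

/-!
# Corner-free sets with unate lines

A set of strings is unate (monotone up to the orientation of the coordinates) if, for suitable
preferred values of the coordinates, it is closed under giving any set of coordinates its preferred
values. Up-sets, down-sets, subcubes, all linear threshold functions (`unate_threshold`) and
intersections of these with subcubes are unate; so a union of `N` unate sets is for instance
anything computed by an OR of `N` threshold gates with arbitrary weights, by a DNF with `N` terms of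
any width, or by a decision tree with `N` leaves labelled by unate functions.

If every row (or column, or diagonal) of a corner-free set `A ⊆ (F_2^n)^2` is a union of `N` unate
sets, which may depend on the line in any way, preferred values included, then
`|A| ≤ N 56^(n / 3) < N 3.83^n`, a power saving of `c ≥ 1 / 32` for all `N ≤ 2 ^ o(n)`. If the
preferred values do not depend on the line, `|A| ≤ N 3^n`, and up to the factor `n + 1` this is
attained for up-sets. If `A` itself is a union of `N` unate sets in the `2 n` coordinates,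
`|A| ≤ N 2^n`.

Idea of (1): let `b x` be the preferred values of the row `x` and let `D, E, F` be sets of
coordinates such that changing `b x` in `D`, in `E` or in `F` leads to points of the row. If this
holds for `x` and `x'`, a corner with the points `b x + W₁, b x + W₃` of the row `x` and
`b x' + W₂` of the row `x'` exists unless `(x, b x)` and `(x', b x')` are in different cosets of the
group of all `(W₁ + W₃, W₁ + W₂)`, `W₁ ⊆ D`, `W₂ ⊆ F`, `W₃ ⊆ E`. Counting cosets and summing over
`D, E, F` gives `∑_x |T_x|^3 ≤ 14^n` for the sizes of the rows.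
-/

set_option autoImplicit false

namespace Pool.Agent.Results.MP_db4732_co.UnateLines

open Finset Pool.Agent.H96.CornerStar

/-- `A ⊆ (F_2^n)^2` contains no nontrivial corner `(x, y), (x, y + z), (x + z, y)`, `z ≠ 0`. -/
def CornerFree {n : ℕ} (A : Finset (V n × V n)) : Prop :=
  ∀ x y z : V n, (x, y) ∈ A → (x, y + z) ∈ A → (x + z, y) ∈ A → z = 0

/-- `L` is the family of all rows, or of all columns, or of all diagonals of `A`. -/
def IsLines {n : ℕ} (A : Finset (V n × V n)) (L : V n → Set (V n)) : Prop :=
  (∀ s, L s = {y | (s, y) ∈ A}) ∨ (∀ s, L s = {x | (x, s) ∈ A}) ∨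
    (∀ s, L s = {y | (s + y, y) ∈ A})

/-- `T` is unate with the preferred values `b`: with `y` it contains the whole subcube
`cube b y = {w | ∀ i, w i = b i ∨ w i = y i}`. -/
def UnateTowards {n : ℕ} (b : V n) (T : Set (V n)) : Prop := ∀ y ∈ T, cube b y ⊆ T

/-- `T` is unate. -/
def Unate {n : ℕ} (T : Set (V n)) : Prop := ∃ b : V n, UnateTowards b T

/-- `F ⊆ (F_2^n)^2` is unate in the `2 n` coordinates. -/
def JointlyUnate {n : ℕ} (F : Set (V n × V n)) : Prop :=
  ∃ a b : V n, ∀ p ∈ F, ∀ q : V n × V n, q.1 ∈ cube a p.1 → q.2 ∈ cube b p.2 → q ∈ F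

/-- Linear threshold functions are unate. -/
theorem unate_threshold {n : ℕ} (w : Fin n → ℝ) (θ : ℝ) :
    Unate {y : V n | θ ≤ ∑ i, if y i = 1 then w i else 0} := by
  refine ⟨fun i => if 0 ≤ w i then 1 else 0, fun y hy v hv => ?_⟩
  have hy' : θ ≤ ∑ i, if y i = 1 then w i else 0 := hy
  show θ ≤ ∑ i, if v i = 1 then w i else 0
  refine hy'.trans (Finset.sum_le_sum fun i _ => ?_)
  rcases hv i with h | h
  · by_cases hw : 0 ≤ w i
    · have h1 : v i = 1 := h.trans (if_pos hw)
      rw [if_pos h1]
      split_ifs
      · exact le_refl _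
      · exact hw
    · have h1 : v i = 0 := h.trans (if_neg hw)
      have h2 : (if v i = 1 then w i else 0) = 0 := if_neg (by rw [h1]; decide)
      rw [h2]
      split_ifs
      · exact (not_le.1 hw).le
      · exact le_refl _
  · rw [h]

/-- Intersections of unate sets with subcubes are unate. -/
theorem unate_inter {n : ℕ} {T : Set (V n)} (hT : Unate T) (S : Finset (Fin n)) (v : V n) :
    Unate (T ∩ {y | ∀ i ∈ S, y i = v i}) := by
  obtain ⟨b, hb⟩ := hT
  refine ⟨fun i => if i ∈ S then v i else b i, ?_⟩
  rintro y ⟨hy, hyv⟩ u hu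
  have hu' : ∀ i, (i ∈ S → u i = v i) ∧ (u i = b i ∨ u i = y i) := by
    intro i
    rcases hu i with h | h
    · by_cases hi : i ∈ S
      · have h : u i = v i := h.trans (if_pos hi)
        exact ⟨fun _ => h, Or.inr (h.trans (hyv i hi).symm)⟩
      · have h : u i = b i := h.trans (if_neg hi)
        exact ⟨fun h' => absurd h' hi, Or.inl h⟩
    · exact ⟨fun hi => h.trans (hyv i hi), Or.inr h⟩
  exact ⟨hb y hy fun i => (hu' i).2, fun i hi => (hu' i).1 hi⟩

/-- **Theorem.** -/
theorem result :
    -- (1) unions of `N` unate sets, depending on the line in any way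
    (∀ (n N : ℕ) (A : Finset (V n × V n)) (L : V n → Set (V n)), CornerFree A → IsLines A L →
      (∀ x, ∃ F : Fin N → Set (V n), (∀ j, Unate (F j)) ∧ L x = ⋃ j, F j) →
      A.card ^ 3 ≤ N ^ 3 * 56 ^ n ∧ (A.card : ℝ) ≤ N * 4 ^ ((1 - 1 / 32 : ℝ) * n)) ∧
    -- (2) preferred values which do not depend on the line
    (∀ (n N : ℕ) (A : Finset (V n × V n)) (L : V n → Set (V n)), CornerFree A → IsLines A L →
      (∃ b : Fin N → V n, ∀ x, ∃ F : Fin N → Set (V n), (∀ j, UnateTowards (b j) (F j)) ∧
        L x = ⋃ j, F j) →
      A.card ≤ N * 3 ^ n) ∧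
    -- (3) unions of `N` sets which are unate in the `2 n` coordinates
    (∀ (n N : ℕ) (A : Finset (V n × V n)) (F : Fin N → Set (V n × V n)), CornerFree A →
      (∀ j, JointlyUnate (F j)) → (∀ p, p ∈ A ↔ ∃ j, p ∈ F j) → A.card ≤ N * 2 ^ n) ∧
    -- (4) for all corner-free sets: points which span a subcube of the line with a given point
    (∀ (n : ℕ) (A : Finset (V n × V n)) (L : V n → Set (V n)), CornerFree A → IsLines A L →
      (∀ b : V n → V n, ∑ x, Set.ncard {y | cube (b x) y ⊆ L x} ^ 3 ≤ 14 ^ n) ∧
      ∀ b : V n, ∑ x, Set.ncard {y | cube b y ⊆ L x} ≤ 3 ^ n) ∧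
    -- (5) corner-free sets whose rows are up-sets with `3 ^ n / (n + 1)` elements
    (∀ n : ℕ, ∃ A : Finset (V n × V n), CornerFree A ∧
      (∀ x, UnateTowards (fun _ => 1) {y | (x, y) ∈ A}) ∧ 3 ^ n ≤ (n + 1) * A.card) := by
  classical
  refine ⟨?_, ?_, ?_, ?_, ?_⟩
  · intro n N A L hA hL hF
    choose F hF hU using hF
    choose b hb using hF
    have h := lines_unate N A hA L hL F b hb hU
    exact ⟨h, real_form h⟩
  · rintro n N A L hA hL ⟨b, hF⟩
    choose F hF hU using hF
    exact lines_common N A hA L hL F b hF hU
  · intro n N A F hA hF hU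
    choose a b hF using hF
    exact joint_unate N A hA F a b hF hU
  · intro n A L hA hL
    have hn : ∀ (b : V n) (x : V n), Set.ncard {y | cube b y ⊆ L x} =
        (univ.filter (fun y : V n => cube b y ⊆ L x)).card := by
      intro b x
      rw [← Set.ncard_coe_finset]
      congr 1
      ext y
      simp
    constructor
    · intro b
      simp only [hn]
      exact star_cubes L (lines_free A hA L hL) b
    · intro b
      simp only [hn]
      have h := star_common L (lines_free A hA L hL) b
      refine le_trans (le_of_eq ?_) h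
      simp only [Finset.card_filter]
      rw [← Finset.univ_product_univ, Finset.sum_product]
  · intro n
    obtain ⟨k, hk⟩ := ex_large n
    refine ⟨ex n k, fun x y z h1 h2 h3 => ex_free n k x y z h1 h2 h3, ?_, hk⟩
    intro x y hy w hw
    obtain ⟨h1, h2⟩ := (Finset.mem_filter.1 hy).2
    refine Finset.mem_filter.2 ⟨Finset.mem_univ _, fun i => ?_, h2⟩
    rcases h1 i with h | h
    · exact Or.inl h
    · rcases hw i with h' | h'
      · exact Or.inr h'
      · exact Or.inr (h'.trans h)

end Pool.Agent.Results.MP_db4732_co.UnateLines
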